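import Pool.Agent.W544.PG.Cmp
import Pool.Agent.W864.PG.SO2

/-!
# The absolute Hodge conjecture for products of powers of surfaces

Let `S_0, ..., S_(r-1)` be smooth projective complex surfaces with `b_1 = 0` and let
`T = ⊕ T_i`, `T_i` the transcendental part of `H^2(S_i)(1)`: a polarised rational Hodge structure
with Hodge numbers `(p_i, q_i, p_i)` (structure `HS n`: the rational form `Q` and the Hodge
operator `x`; `c` says to which surface a basis vector belongs).  Assume (`HS.Big`) that the only
Hodge endomorphisms of `T` are the rational scalars on the `T_i` and that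
`2 p_i^2 (p_i^2 + 1) < (q_i - 2 p_i) (q_i + p_i)`, or `p_i = 1` and `q_i` is not `0` or `2`.

The cohomology of `S_i` is spanned by algebraic classes and `T_i`; a class on
`S_(a 1) × ... × S_(a m)` is a rational `m`-linear form `t` on the total cohomology
(Poincare duality and Kuenneth), `InDeg` says that it lies in `H^(2k)` of this product and
`IsHodgeS` that it is a Hodge class.

For an automorphism `σ` of the complex numbers let `T'` be the transcendental part of the
conjugate surfaces.  The comparison isomorphisms respect the algebraic classes, the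
transcendental parts and the intersection forms; `K : Comparison T T' c` records the matrices
`K.D` (de Rham, `σ`-semilinear) and `K.E l` (`l`-adic, all primes `l`).

We prove both parts of the absolute Hodge conjecture for all products of the surfaces and all
degrees: every Hodge class `t` on a product is transformed into a Hodge class `t'` of the conjugate
product, of the same degree, by the de Rham comparison, and for every prime `l` by the `l`-adic
comparison.
-/

open Matrix Finset Module

namespace Pool.Agent.Results.MP_e2e4f5_ag.ProductsOfSurfaces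

open Pool.Agent.W544.PG

/-- The absolute Hodge conjecture (both parts) for all products of the surfaces. -/
theorem result {n r s m k : ℕ} (T T' : HS n) (c : Fin n → Fin r) (p q : Fin r → ℕ)
    (hT : T.Big c p q) (σ : ℂ ≃+* ℂ) (K : Comparison T T' c)
    (d : Fin s → Fin r) (cd : Fin s → ℕ) (a : Fin m → Fin r)
    (t : (Fin m → Fin s ⊕ Fin n) → ℚ) (ht : T.IsHodgeS t) (htd : InDeg c d cd a k t) :
    (∃ t' : (Fin m → Fin s ⊕ Fin n) → ℚ, T'.IsHodgeS t' ∧ InDeg c d cd a k t' ∧
      ∀ v : Fin m → Fin s ⊕ Fin n → ℂ,
        evG t' (fun j => fromBlocks 1 0 0 K.D *ᵥ (σ ∘ v j)) = σ (evG t v)) ∧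
    ∀ (l : ℕ) [Fact l.Prime], ∃ t' : (Fin m → Fin s ⊕ Fin n) → ℚ, T'.IsHodgeS t' ∧
      InDeg c d cd a k t' ∧
      pull (fromBlocks 1 0 0 (K.E l)) (fun J => (t' J : ℚ_[l])) = fun J => (t J : ℚ_[l]) :=
  ah_main Pool.Agent.W864.PG.so2 (fun Z hZ hZc => mainPF hT Z hZ hZc) hT.bQ K.bQ K.bx σ K.D K.bD
    K.isoD K.E K.bE K.isoE d cd a t ht htd

end Pool.Agent.Results.MP_e2e4f5_ag.ProductsOfSurfaces
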